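import Pool.Agent.Helper75.P705.N12b

/-!
# MP_705522_gt: numeric kernel, one block (N12)
-/

namespace Pool.Agent.Helper75.P705

open Finset hiding ext
open Pool.Agent.Helper63.P705
open Pool.Agent.Helper53.PT (mo m3 f0 f1 f2)

/-- multiplier -/
noncomputable def mu (t : ℕ) : ℝ := if t = 0 then 1 else if t = 1 then -4 else -8
/-- multiplier of the Taylor polynomial -/
noncomputable def ka (t : ℕ) : ℝ := if t = 0 then 1 else -2

theorem mu_ka {t : ℕ} (ht : t < 3) : mu t = ka t * 2 ^ t := by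
  interval_cases t <;> norm_num [mu, ka]

theorem mu_abs {t : ℕ} (ht : t < 3) : |mu t| ≤ 8 := by
  interval_cases t <;> norm_num [mu]

theorem ka_abs {t : ℕ} (ht : t < 3) : |ka t| ≤ 2 := by
  interval_cases t <;> norm_num [ka]

theorem floor_err (z : ℤ) (k : ℕ) : |((z / 2 ^ k : ℤ) : ℝ) - (z : ℝ) / 2 ^ k| ≤ 1 := by
  have hp : (0 : ℤ) < 2 ^ k := by positivity
  have h1 := Int.ediv_mul_le z hp.ne'
  have h2 := Int.lt_ediv_add_one_mul_self z hp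
  have hp' : (0 : ℝ) < 2 ^ k := by positivity
  have h1' : ((z / 2 ^ k : ℤ) : ℝ) * 2 ^ k ≤ z := by exact_mod_cast h1
  have h2' : (z : ℝ) < (((z / 2 ^ k : ℤ) : ℝ) + 1) * 2 ^ k := by exact_mod_cast h2
  rw [abs_le]
  constructor
  · have : (z : ℝ) / 2 ^ k < ((z / 2 ^ k : ℤ) : ℝ) + 1 := by rw [div_lt_iff₀ hp']; exact h2'
    linarith
  · have : ((z / 2 ^ k : ℤ) : ℝ) ≤ (z : ℝ) / 2 ^ k := by rw [le_div_iff₀ hp']; exact h1'
    linarith

theorem nI_err (c : ℕ → ℤ) (J lam : ℕ) {t : ℕ} (ht : t < 3) (i : ℕ) :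
    |(nI c J lam t i : ℝ) - mu t * W t i * c (i + t) / 2 ^ (7 * J + 100 - 192 + lam * i)| ≤ 1 := by
  interval_cases t
  · have h := floor_err (c i) (7 * J + 100 - 192 + lam * i)
    have e : (mu 0 * W 0 i * c (i + 0) : ℝ) = c i := by simp [mu, W_zero]
    rw [e]
    simpa [nI] using h
  · have h := floor_err (4 * ((i : ℤ) + 1) * c (i + 1)) (7 * J + 100 - 192 + lam * i)
    have e : (mu 1 * W 1 i * c (i + 1) : ℝ) = -((4 * ((i : ℤ) + 1) * c (i + 1) : ℤ) : ℝ) := by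
      simp [mu, W_one]
    have e' : (nI c J lam 1 i : ℝ) =
        -((4 * ((i : ℤ) + 1) * c (i + 1) / 2 ^ (7 * J + 100 - 192 + lam * i) : ℤ) : ℝ) := by
      unfold nI
      rw [if_neg (by norm_num), if_pos rfl, Int.cast_neg]
    rw [e, e', neg_div, ← neg_add', abs_neg, ← sub_eq_add_neg]
    exact h
  · have h := floor_err (8 * (((i : ℤ) + 2) * (i + 1)) * c (i + 2)) (7 * J + 100 - 192 + lam * i)
    have e : (mu 2 * W 2 i * c (i + 2) : ℝ) = -((8 * (((i : ℤ) + 2) * (i + 1)) * c (i + 2) : ℤ) : ℝ) := by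
      simp [mu, W_two]
    have e' : (nI c J lam 2 i : ℝ) =
        -((8 * (((i : ℤ) + 2) * (i + 1)) * c (i + 2) / 2 ^ (7 * J + 100 - 192 + lam * i) : ℤ) : ℝ) := by
      unfold nI
      rw [if_neg (by norm_num), if_neg (by norm_num), Int.cast_neg]
    rw [e, e', neg_div, ← neg_add', abs_neg, ← sub_eq_add_neg]
    exact h

theorem term_err (c : ℕ → ℤ) {J lam t d : ℕ} (ht : t < 3) (hJ : 24 ≤ J) (hd : d ≤ 255) (i : ℕ) :
    |(nI c J lam t i : ℝ) * (d : ℝ) ^ i / 2 ^ 192 -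
      mu t * W t i * (c (i + t) / 2 ^ (7 * J + 100)) * ((d : ℝ) / 2 ^ lam) ^ i| ≤ 255 ^ i / 2 ^ 192 := by
  have h := nI_err c J lam ht i
  have e1 : (2 : ℝ) ^ (7 * J + 100) * 2 ^ (lam * i) = 2 ^ (7 * J + 100 - 192 + lam * i) * 2 ^ 192 := by
    have e0 : 7 * J + 100 + lam * i = (7 * J + 100 - 192 + lam * i) + 192 := by omega
    rw [← pow_add, ← pow_add, ← e0]
  have e2 : mu t * W t i * ((c (i + t) : ℝ) / 2 ^ (7 * J + 100)) * ((d : ℝ) / 2 ^ lam) ^ i =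
      mu t * W t i * c (i + t) / 2 ^ (7 * J + 100 - 192 + lam * i) * ((d : ℝ) ^ i / 2 ^ 192) := by
    rw [div_pow, ← pow_mul]
    have hp1 : (2 : ℝ) ^ (7 * J + 100) ≠ 0 := by positivity
    have hp2 : (2 : ℝ) ^ (lam * i) ≠ 0 := by positivity
    have hp3 : (2 : ℝ) ^ (7 * J + 100 - 192 + lam * i) ≠ 0 := by positivity
    have hp4 : (2 : ℝ) ^ 192 ≠ 0 := by positivity
    calc _ = mu t * W t i * c (i + t) * (d : ℝ) ^ i / (2 ^ (7 * J + 100) * 2 ^ (lam * i)) := by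
          field_simp
      _ = mu t * W t i * c (i + t) * (d : ℝ) ^ i / (2 ^ (7 * J + 100 - 192 + lam * i) * 2 ^ 192) := by
          rw [e1]
      _ = _ := by rw [← div_mul_div_comm]
  rw [e2, mul_div_assoc, ← sub_mul, abs_mul, abs_of_nonneg (by positivity : (0 : ℝ) ≤ (d : ℝ) ^ i / 2 ^ 192)]
  have h3 : (d : ℝ) ^ i / 2 ^ 192 ≤ 255 ^ i / 2 ^ 192 := by
    apply div_le_div_of_nonneg_right _ (by positivity)
    apply pow_le_pow_left₀ (by positivity)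
    exact_mod_cast hd
  calc _ ≤ 1 * ((d : ℝ) ^ i / 2 ^ 192) := mul_le_mul_of_nonneg_right h (by positivity)
    _ ≤ _ := by rw [one_mul]; exact h3

theorem geo18 {n : ℕ} (hn : n ≤ 18) : ∑ i ∈ range n, (255 : ℝ) ^ i / 2 ^ 192 ≤ 2⁻¹ ^ 51 := by
  have h1 : ∑ i ∈ range n, (255 : ℝ) ^ i / 2 ^ 192 ≤ ∑ i ∈ range 18, (255 : ℝ) ^ i / 2 ^ 192 := by
    apply sum_le_sum_of_subset_of_nonneg
    · intro i hi
      rw [mem_range] at hi ⊢
      omega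
    · intro i _ _; positivity
  refine h1.trans ?_
  norm_num [sum_range_succ]

/-- `mu W c/2^(7J+100) e^i` in terms of the exact coefficients -/
theorem mid_eq {θ : ℝ} (A : ℕ → ℕ) (b J : ℕ) {t : ℕ} (ht : t < 3) (i : ℕ) (e : ℝ) :
    mu t * W t i * ((cI A b J (i + t) : ℝ) / 2 ^ (7 * J + 100)) * e ^ i =
    ka t * (W t i * cT θ (b / 2) J (i + t) * (e / 2) ^ i) + mu t * (W t i * er A (Tj θ) b J (i + t) * e ^ i) := by
  rw [c_eq θ A b J (i + t), mu_ka ht, div_pow, pow_add]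
  have hp1 : (2 : ℝ) ^ i ≠ 0 := by positivity
  have hp2 : (2 : ℝ) ^ t ≠ 0 := by positivity
  field_simp

theorem sum_err {θ : ℝ} (A : ℕ → ℕ) {b J lam t d n : ℕ} (ht : t < 3) (hJ : 24 ≤ J) (hJ' : J ≤ 120)
    (hd : d ≤ 255) (hn : n ≤ 18) (hbe : (b : ℝ) + (d : ℝ) / 2 ^ lam ≤ 128)
    (hs : ∑ j ∈ range 121, |(A j : ℝ) - Tj θ j| ≤ 2 ^ 57) :
    |((∑ i ∈ range n, nI (cI A b J) J lam t i * (d : ℤ) ^ i : ℤ) : ℝ) / 2 ^ 192 -
      ka t * ∑ i ∈ range n, W t i * cT θ (b / 2) J (i + t) * (((d : ℝ) / 2 ^ lam) / 2) ^ i| ≤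
      8 * 2⁻¹ ^ 43 + 2⁻¹ ^ 51 := by
  set e : ℝ := (d : ℝ) / 2 ^ lam with he
  have he0 : 0 ≤ e := by positivity
  have h1 : ((∑ i ∈ range n, nI (cI A b J) J lam t i * (d : ℤ) ^ i : ℤ) : ℝ) / 2 ^ 192 -
      ka t * ∑ i ∈ range n, W t i * cT θ (b / 2) J (i + t) * (e / 2) ^ i =
      ∑ i ∈ range n, ((nI (cI A b J) J lam t i : ℝ) * (d : ℝ) ^ i / 2 ^ 192 -
        mu t * W t i * (cI A b J (i + t) / 2 ^ (7 * J + 100)) * e ^ i) +
      mu t * ∑ i ∈ range n, W t i * er A (Tj θ) b J (i + t) * e ^ i := by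
    rw [Int.cast_sum, sum_div, mul_sum, mul_sum, ← sum_sub_distrib, ← sum_add_distrib]
    apply sum_congr rfl
    intro i _
    rw [mid_eq (θ := θ) A b J ht i e]
    push_cast
    ring
  rw [h1]
  have h2 : |∑ i ∈ range n, ((nI (cI A b J) J lam t i : ℝ) * (d : ℝ) ^ i / 2 ^ 192 -
        mu t * W t i * (cI A b J (i + t) / 2 ^ (7 * J + 100)) * e ^ i)| ≤ 2⁻¹ ^ 51 :=
    (abs_sum_le_sum_abs _ _).trans ((sum_le_sum fun i _ => term_err (cI A b J) ht hJ hd i).trans (geo18 hn))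
  have h3 : |∑ i ∈ range n, W t i * er A (Tj θ) b J (i + t) * e ^ i| ≤ 2⁻¹ ^ 43 := by
    refine (abs_sum_le_sum_abs _ _).trans (le_trans (le_of_eq ?_)
      (er_bd A (Tj θ) (b := b) (J := J) t n he0 hbe hJ' hs))
    apply sum_congr rfl
    intro i _
    rw [abs_mul, abs_mul, abs_of_nonneg (by positivity : (0 : ℝ) ≤ (W t i : ℝ)),
      abs_of_nonneg (by positivity : (0 : ℝ) ≤ e ^ i)]
  have h4 : |mu t * ∑ i ∈ range n, W t i * er A (Tj θ) b J (i + t) * e ^ i| ≤ 8 * 2⁻¹ ^ 43 := by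
    rw [abs_mul]
    exact mul_le_mul (mu_abs ht) h3 (abs_nonneg _) (by norm_num)
  have h5 := abs_add_le (∑ i ∈ range n, ((nI (cI A b J) J lam t i : ℝ) * (d : ℝ) ^ i / 2 ^ 192 -
        mu t * W t i * (cI A b J (i + t) / 2 ^ (7 * J + 100)) * e ^ i))
    (mu t * ∑ i ∈ range n, W t i * er A (Tj θ) b J (i + t) * e ^ i)
  linarith

/-- one term -/
theorem er_one {θ : ℝ} (A : ℕ → ℕ) {b J : ℕ} (t i : ℕ) {e : ℝ} (he : 0 ≤ e) (hbe : (b : ℝ) + e ≤ 128)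
    (hJ : J ≤ 120) (hs : ∑ j ∈ range 121, |(A j : ℝ) - Tj θ j| ≤ 2 ^ 57) :
    (W t i : ℝ) * |er A (Tj θ) b J (i + t)| * e ^ i ≤ 2⁻¹ ^ 43 := by
  refine le_trans ?_ (er_bd A (Tj θ) (b := b) (J := J) t (i + 1) he hbe hJ hs)
  exact single_le_sum (f := fun i => (W t i : ℝ) * |er A (Tj θ) b J (i + t)| * e ^ i)
    (fun k _ => by positivity) (mem_range.2 (Nat.lt_succ_self i))

theorem W_fac (t i : ℕ) : (W t i : ℝ) * (i.factorial : ℝ) = ((i + t).factorial : ℝ) := by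
  have h := Nat.factorial_mul_descFactorial (n := i + t) (k := t) (by omega)
  rw [Nat.add_sub_cancel] at h
  have h' : (i.factorial : ℝ) * (W t i : ℝ) = ((i + t).factorial : ℝ) := by
    unfold W; exact_mod_cast h
  linarith

theorem cT_term (h10 : N10) {θ : ℝ} (h0 : 0 < θ) (h1 : θ < 1 / 2)
    (hal : ∀ j, 0 < al θ j ∧ al θ j ≤ 1 / (2 ^ j * (j.factorial : ℝ))) {b J : ℕ} {t i : ℕ}
    (hi : i + t ≤ 17) (hJ : 24 ≤ J) (hK : 3 * b ≤ 4 * (J - 16)) {w : ℝ} (hw0 : 0 ≤ w) (hw : w ≤ 2) :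
    W t i * |cT θ (b / 2) J (i + t)| * w ^ i ≤ 2 := by
  have hb := cT_bd h10 h0 h1 hal (xb := (b : ℝ) / 2) (by positivity) (J := J) (i := i + t) (by omega) (by
    have h2 : 3 * b ≤ 4 * (J + 1 - (i + t)) := by omega
    have h3 : (3 : ℝ) * b ≤ 4 * ((J + 1 - (i + t) : ℕ) : ℝ) := by exact_mod_cast h2
    linarith)
  have h2 : w ^ i ≤ 2 ^ i := pow_le_pow_left₀ hw0 hw i
  have h3 := W_fac t i
  have h4 : (1 : ℝ) ≤ (i.factorial : ℝ) := by exact_mod_cast Nat.one_le_iff_ne_zero.2 (Nat.factorial_ne_zero i)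
  have h5 : (1 : ℝ) ≤ 2 ^ t := one_le_pow₀ (by norm_num)
  calc _ ≤ (W t i : ℝ) * (2 / (2 ^ (i + t) * ((i + t).factorial : ℝ))) * 2 ^ i :=
        mul_le_mul (mul_le_mul_of_nonneg_left hb (by positivity)) h2 (by positivity) (by positivity)
    _ = 2 / (2 ^ t * (i.factorial : ℝ)) := by
        rw [← h3, pow_add]
        have hW : (W t i : ℝ) ≠ 0 := by
          intro h; rw [h, zero_mul] at h3
          have : (0 : ℝ) < ((i + t).factorial : ℝ) := by positivity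
          linarith
        field_simp
    _ ≤ 2 := by
        rw [div_le_iff₀ (by positivity)]
        nlinarith [mul_le_mul h5 h4 (by norm_num) (by positivity)]

/-- size of the rounded coefficients -/
theorem term_bd (h10 : N10) {θ : ℝ} (h0 : 0 < θ) (h1 : θ < 1 / 2)
    (hal : ∀ j, 0 < al θ j ∧ al θ j ≤ 1 / (2 ^ j * (j.factorial : ℝ))) (A : ℕ → ℕ) {b J lam t d i : ℕ}
    (ht : t < 3) (hi : i + t ≤ 17) (hJ : 24 ≤ J) (hJ' : J ≤ 120) (hK : 3 * b ≤ 4 * (J - 16))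
    (hd : d ≤ 255) (hbe : (b : ℝ) + (d : ℝ) / 2 ^ lam ≤ 128) (hd4 : (d : ℝ) / 2 ^ lam ≤ 4)
    (hs : ∑ j ∈ range 121, |(A j : ℝ) - Tj θ j| ≤ 2 ^ 57) :
    |nI (cI A b J) J lam t i| * (d : ℤ) ^ i ≤ 2 ^ 196 := by
  set e : ℝ := (d : ℝ) / 2 ^ lam with he
  have he0 : 0 ≤ e := by positivity
  have h2 := term_err (cI A b J) (lam := lam) ht hJ hd i
  rw [← he, mid_eq (θ := θ) A b J ht i e] at h2
  have h3 := cT_term h10 h0 h1 hal (b := b) (J := J) (t := t) (i := i) hi hJ hK (w := e / 2)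
    (by positivity) (by linarith)
  have h4 := er_one (θ := θ) A (b := b) (J := J) t i he0 hbe hJ' hs
  have h5 : |ka t * (W t i * cT θ (b / 2) J (i + t) * (e / 2) ^ i)| ≤ 2 * 2 := by
    rw [abs_mul, abs_mul, abs_mul, abs_of_nonneg (by positivity : (0 : ℝ) ≤ (W t i : ℝ)),
      abs_of_nonneg (by positivity : (0 : ℝ) ≤ (e / 2) ^ i)]
    exact mul_le_mul (ka_abs ht) h3 (by positivity) (by norm_num)
  have h6 : |mu t * (W t i * er A (Tj θ) b J (i + t) * e ^ i)| ≤ 8 * 2⁻¹ ^ 43 := by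
    rw [abs_mul, abs_mul, abs_mul, abs_of_nonneg (by positivity : (0 : ℝ) ≤ (W t i : ℝ)),
      abs_of_nonneg (by positivity : (0 : ℝ) ≤ e ^ i)]
    exact mul_le_mul (mu_abs ht) h4 (by positivity) (by norm_num)
  have h7 : (255 : ℝ) ^ i / 2 ^ 192 ≤ 2⁻¹ ^ 51 := by
    refine le_trans ?_ (geo18 (n := 18) le_rfl)
    exact single_le_sum (f := fun i => (255 : ℝ) ^ i / 2 ^ 192) (fun k _ => by positivity)
      (mem_range.2 (by omega : i < 18))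
  have h8 : |(nI (cI A b J) J lam t i : ℝ) * (d : ℝ) ^ i / 2 ^ 192| ≤ 16 := by
    have e1 := abs_sub_abs_le_abs_sub ((nI (cI A b J) J lam t i : ℝ) * (d : ℝ) ^ i / 2 ^ 192)
      (ka t * (W t i * cT θ (b / 2) J (i + t) * (e / 2) ^ i) +
        mu t * (W t i * er A (Tj θ) b J (i + t) * e ^ i))
    have e2 := abs_add_le (ka t * (W t i * cT θ (b / 2) J (i + t) * (e / 2) ^ i))
      (mu t * (W t i * er A (Tj θ) b J (i + t) * e ^ i))
    have e3 : (8 : ℝ) * 2⁻¹ ^ 43 ≤ 1 := by norm_num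
    have e4 : (2⁻¹ : ℝ) ^ 51 ≤ 1 := by norm_num
    linarith
  have h9 : |(nI (cI A b J) J lam t i : ℝ)| * (d : ℝ) ^ i ≤ 2 ^ 196 := by
    rw [abs_div, abs_mul, abs_of_nonneg (by positivity : (0 : ℝ) ≤ (2 : ℝ) ^ 192),
      abs_of_nonneg (by positivity : (0 : ℝ) ≤ (d : ℝ) ^ i), div_le_iff₀ (by positivity)] at h8
    refine h8.trans (le_of_eq ?_)
    norm_num
  exact_mod_cast h9

theorem c_bd (h10 : N10) {θ : ℝ} (h0 : 0 < θ) (h1 : θ < 1 / 2)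
    (hal : ∀ j, 0 < al θ j ∧ al θ j ≤ 1 / (2 ^ j * (j.factorial : ℝ))) (A : ℕ → ℕ) {b J i : ℕ}
    (hi : i ≤ 17) (hJ : 24 ≤ J) (hJ' : J ≤ 120) (hK : 3 * b ≤ 4 * (J - 16)) (hb : b ≤ 124)
    (hs : ∑ j ∈ range 121, |(A j : ℝ) - Tj θ j| ≤ 2 ^ 57) :
    |cI A b J i| < 2 ^ 1023 := by
  have hb' : (b : ℝ) ≤ 124 := by exact_mod_cast hb
  have h2 := c_eq θ A b J i
  have h3 := cT_term h10 h0 h1 hal (b := b) (J := J) (t := 0) (i := i) hi hJ hK (w := 1)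
    (by norm_num) (by norm_num)
  have h4 := er_one (θ := θ) A (b := b) (J := J) 0 i (e := 1) (by norm_num) (by linarith) hJ' hs
  rw [W_zero, Nat.cast_one, one_mul, one_pow, mul_one, add_zero] at h3 h4
  have h5 : |(cI A b J i : ℝ) / 2 ^ (7 * J + 100)| ≤ 3 := by
    rw [h2]
    refine (abs_add_le _ _).trans ?_
    rw [abs_div, abs_of_nonneg (by positivity : (0 : ℝ) ≤ (2 : ℝ) ^ i)]
    have e1 : |cT θ (b / 2) J i| / 2 ^ i ≤ |cT θ (b / 2) J i| := by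
      apply div_le_self (abs_nonneg _)
      exact one_le_pow₀ (by norm_num)
    have e2 : (2⁻¹ : ℝ) ^ 43 ≤ 1 := by norm_num
    linarith
  rw [abs_div, abs_of_nonneg (by positivity : (0 : ℝ) ≤ (2 : ℝ) ^ (7 * J + 100)),
    div_le_iff₀ (by positivity)] at h5
  have h6 : (2 : ℝ) ^ (7 * J + 100) ≤ 2 ^ 940 := pow_le_pow_right₀ (by norm_num) (by omega)
  have h7 : (3 : ℝ) * 2 ^ 940 < 2 ^ 1023 := by
    have e3 : (2 : ℝ) ^ 1023 = 2 ^ 83 * 2 ^ 940 := by rw [← pow_add]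
    rw [e3]
    exact mul_lt_mul_of_pos_right (by norm_num) (by positivity)
  have h8 : |(cI A b J i : ℝ)| < 2 ^ 1023 := by
    refine lt_of_le_of_lt (h5.trans ?_) h7
    exact mul_le_mul_of_nonneg_left h6 (by norm_num)
  exact_mod_cast h8

theorem ext_eq (p s : ℕ) : ext p s = Nat.shiftRight p s % 2 ^ 43 - 2 ^ 40 := by
  unfold ext
  show Nat.land (Nat.shiftRight p s) 8796093022207 - 1099511627776 = _
  rw [show (8796093022207 : ℕ) = 2 ^ 43 - 1 by norm_num, show (1099511627776 : ℕ) = 2 ^ 40 by norm_num]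
  congr 1
  exact Nat.and_two_pow_sub_one_eq_mod _ _

theorem fin_t {P : ℕ} {V f S : ℝ} (hP : |(P : ℝ) - (V + 2 ^ 193) / 2 ^ 152| ≤ 1 + 2⁻¹ ^ 100)
    (hV : |V / 2 ^ 192 - S| ≤ 8 * 2⁻¹ ^ 43 + 2⁻¹ ^ 51) (hS : |f - S| ≤ 2⁻¹ ^ 43) (hf : -1 ≤ f) :
    |((P - 2 ^ 40 : ℕ) : ℝ) / 2 ^ 40 - 1 - f| ≤ 2⁻¹ ^ 38 := by
  have e1 : (V + 2 ^ 193) / 2 ^ 152 = (V / 2 ^ 192 + 2) * 2 ^ 40 := by
    field_simp
  rw [e1] at hP
  have h1 := abs_le.1 hP
  have h2 := abs_le.1 hV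
  have h3 := abs_le.1 hS
  have c1 : ((8 : ℝ) * 2⁻¹ ^ 43 + 2⁻¹ ^ 51 + 2⁻¹ ^ 43) * 2 ^ 40 + (1 + 2⁻¹ ^ 100) ≤ 2⁻¹ ^ 38 * 2 ^ 40 := by
    norm_num
  have hA : ((P : ℝ) / 2 ^ 40 - 2) - f ≤ 2⁻¹ ^ 38 := by
    have : (P : ℝ) ≤ (2⁻¹ ^ 38 + 2 + f) * 2 ^ 40 := by nlinarith [h1.2, h2.2, h3.1]
    have h4 : (P : ℝ) / 2 ^ 40 ≤ 2⁻¹ ^ 38 + 2 + f := by rw [div_le_iff₀ (by positivity)]; exact this
    linarith
  have hB : -2⁻¹ ^ 38 ≤ ((P : ℝ) / 2 ^ 40 - 2) - f := by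
    have : (-2⁻¹ ^ 38 + 2 + f) * 2 ^ 40 ≤ (P : ℝ) := by nlinarith [h1.1, h2.1, h3.2]
    have h4 : -2⁻¹ ^ 38 + 2 + f ≤ (P : ℝ) / 2 ^ 40 := by rw [le_div_iff₀ (by positivity)]; exact this
    linarith
  rcases Nat.lt_or_ge P (2 ^ 40) with h | h
  · rw [Nat.sub_eq_zero_of_le h.le]
    have h5 : (P : ℝ) / 2 ^ 40 < 1 := by
      rw [div_lt_one (by positivity)]; exact_mod_cast h
    rw [abs_le]
    constructor
    · simp only [Nat.cast_zero, zero_div]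
      linarith
    · simp only [Nat.cast_zero, zero_div]
      have : (0 : ℝ) ≤ 2⁻¹ ^ 38 := by positivity
      linarith
  · rw [Nat.cast_sub h, Nat.cast_pow, Nat.cast_ofNat]
    have e2 : ((P : ℝ) - 2 ^ 40) / 2 ^ 40 - 1 - f = ((P : ℝ) / 2 ^ 40 - 2) - f := by
      field_simp
      ring
    rw [e2, abs_le]
    exact ⟨hB, hA⟩

/-- selected coefficients -/
def nn (c : ℕ → ℤ) (J lam t i : ℕ) : ℤ := if i < 18 - t then nI c J lam t i else 0

theorem nn_sum (c : ℕ → ℤ) (J lam t : ℕ) (g : ℕ → ℤ) :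
    ∑ i ∈ range 18, nn c J lam t i * g i = ∑ i ∈ range (18 - t), nI c J lam t i * g i := by
  symm
  apply Finset.sum_subset_zero_on_sdiff
  · intro i hi
    rw [mem_range] at hi ⊢
    omega
  · intro i hi
    rw [mem_sdiff, mem_range, mem_range] at hi
    unfold nn
    rw [if_neg hi.2, zero_mul]
  · intro i hi
    rw [mem_range] at hi
    unfold nn
    rw [if_pos hi]

theorem core (h10 : N10) (h11 : N11) {θ : ℝ} (h0 : 0 < θ) (h1 : θ < 1 / 2)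
    (hal : ∀ j, 0 < al θ j ∧ al θ j ≤ 1 / (2 ^ j * (j.factorial : ℝ))) (A : ℕ → ℕ)
    (hs : ∑ j ∈ range 121, |(A j : ℝ) - Tj θ j| ≤ 2 ^ 57) {b lam cnt d J : ℕ}
    (hblk : IsBlk b lam cnt) (hd : d < cnt) (hJdef : J = min 120 (24 + b)) {x : ℝ}
    (hx : x = (b + d / 2 ^ lam) / 2) :
    (∀ i < 18, |cI A b J i| < 2 ^ 1023) ∧
    (∀ t < 3, ∀ i < 18, |nn (cI A b J) J lam t i| * (d : ℤ) ^ i ≤ 2 ^ 196) ∧
    (∀ t < 3, |∑ i ∈ range 18, nn (cI A b J) J lam t i * (d : ℤ) ^ i| < 2 ^ 193) ∧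
    ∀ t < 3, ∀ P : ℕ, |(P : ℝ) - ((∑ i ∈ range 18, nn (cI A b J) J lam t i * (d : ℤ) ^ i : ℤ) + 2 ^ 193 : ℝ) /
      2 ^ 152| ≤ 1 + 2⁻¹ ^ 100 → |((P - 2 ^ 40 : ℕ) : ℝ) / 2 ^ 40 - 1 -
        (if t = 0 then f0 θ x else if t = 1 then f1 θ x else f2 θ x)| ≤ 2⁻¹ ^ 38 := by
  obtain ⟨hb1, hlam, hd1, hd4, hbe, _⟩ := blk_facts hblk hd
  have hJ : 24 ≤ J := by omega
  have hJ' : J ≤ 120 := by omega
  have hK : 3 * b ≤ 4 * (J - 16) := by omega
  have he4 : (d : ℝ) / 2 ^ lam ≤ 4 := by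
    rw [div_le_iff₀ (by positivity)]; exact_mod_cast hd4
  have hbe' : (b : ℝ) + (d : ℝ) / 2 ^ lam ≤ 128 := by
    have h2 : (b : ℝ) * 2 ^ lam + d ≤ 128 * 2 ^ lam := by exact_mod_cast hbe
    have h3 : (0 : ℝ) < 2 ^ lam := by positivity
    have h4 : (b : ℝ) + (d : ℝ) / 2 ^ lam = ((b : ℝ) * 2 ^ lam + d) / 2 ^ lam := by field_simp
    rw [h4, div_le_iff₀ h3]
    exact h2
  have hx' : x = b / 2 + (d / 2 ^ lam) / 2 := by rw [hx]; ring
  have hT := h11 h10 θ h0 h1 hal ((b : ℝ) / 2) (((d : ℝ) / 2 ^ lam) / 2) J (by positivity) (by positivity)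
    (by linarith) hJ (by
      have e1 : (b : ℝ) + 4 ≤ 2 * (J + 1) := by
        have : b + 4 ≤ 2 * (J + 1) := by omega
        exact_mod_cast this
      linarith) (blk_fac hblk hd hJdef)
  rw [← hx'] at hT
  have hx0 : 0 ≤ x := by rw [hx]; positivity
  have hbd := Pool.Agent.Helper53.PT.aBD h0 h1 hx0
  -- the three functions
  obtain ⟨F, hF⟩ : ∃ F : ℕ → ℝ, F = fun t => if t = 0 then f0 θ x else if t = 1 then f1 θ x else f2 θ x := ⟨_, rfl⟩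
  have hFb : ∀ t < 3, |F t| ≤ 1 := by
    intro t ht
    rw [hF]
    interval_cases t
    · exact hbd.1
    · exact hbd.2.2.2.1
    · have h2 := hbd.2.2.2.2.2.1
      have h3 := (hal 2).2
      have h4 : mo θ 2 = al θ 2 * 24 := by
        unfold al
        norm_num [Nat.factorial]
      have h5 : mo θ 2 ≤ 3 := by
        rw [h4]
        norm_num [Nat.factorial] at h3
        linarith
      show |f2 θ x| ≤ 1
      linarith
  have hTt : ∀ t < 3, |F t - ka t * ∑ i ∈ range (18 - t), W t i * cT θ (b / 2) J (i + t) *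
      (((d : ℝ) / 2 ^ lam) / 2) ^ i| ≤ 2⁻¹ ^ 43 := by
    intro t ht
    rw [hF]
    interval_cases t
    · have h2 := hT.1
      show |f0 θ x - ka 0 * ∑ i ∈ range 18, _| ≤ _
      rw [show ka 0 = 1 by norm_num [ka], one_mul]
      simpa only [W_zero, Nat.cast_one, one_mul, add_zero] using h2
    · have h2 := hT.2.1
      show |f1 θ x - ka 1 * ∑ i ∈ range 17, _| ≤ _
      rw [show ka 1 = -2 by norm_num [ka]]
      simpa only [W_one, Nat.cast_add, Nat.cast_one] using h2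
    · have h2 := hT.2.2
      show |f2 θ x - ka 2 * ∑ i ∈ range 16, _| ≤ _
      rw [show ka 2 = -2 by norm_num [ka]]
      simpa only [W_two, Nat.cast_add, Nat.cast_one, Nat.cast_mul, Nat.cast_ofNat] using h2
  have hVt : ∀ t < 3, |((∑ i ∈ range 18, nn (cI A b J) J lam t i * (d : ℤ) ^ i : ℤ) : ℝ) / 2 ^ 192 -
      ka t * ∑ i ∈ range (18 - t), W t i * cT θ (b / 2) J (i + t) * (((d : ℝ) / 2 ^ lam) / 2) ^ i| ≤
      8 * 2⁻¹ ^ 43 + 2⁻¹ ^ 51 := by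
    intro t ht
    rw [nn_sum]
    exact sum_err A ht hJ hJ' hd1 (by omega) hbe' hs
  refine ⟨fun i hi => c_bd h10 h0 h1 hal A (by omega) hJ hJ' hK hb1 hs, ?_, ?_, ?_⟩
  · intro t ht i hi
    unfold nn
    by_cases h : i < 18 - t
    · rw [if_pos h]
      exact term_bd h10 h0 h1 hal A ht (by omega) hJ hJ' hK hd1 hbe' he4 hs
    · rw [if_neg h, abs_zero, zero_mul]
      positivity
  · intro t ht
    have h2 := abs_le.1 (hVt t ht)
    have h3 := abs_le.1 (hTt t ht)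
    have h4 := abs_le.1 (hFb t ht)
    have c1 : (8 : ℝ) * 2⁻¹ ^ 43 + 2⁻¹ ^ 51 + 2⁻¹ ^ 43 < 1 := by norm_num
    obtain ⟨V, hV⟩ : ∃ V : ℤ, V = ∑ i ∈ range 18, nn (cI A b J) J lam t i * (d : ℤ) ^ i := ⟨_, rfl⟩
    rw [← hV] at h2 ⊢
    have h5 : |(V : ℝ) / 2 ^ 192| < 2 := by
      rw [abs_lt]
      constructor <;> linarith
    rw [abs_div, abs_of_nonneg (by positivity : (0 : ℝ) ≤ (2 : ℝ) ^ 192), div_lt_iff₀ (by positivity)] at h5
    have h6 : |(V : ℝ)| < 2 ^ 193 := by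
      refine lt_of_lt_of_eq h5 ?_
      norm_num
    exact_mod_cast h6
  · intro t ht P hP
    have h2 := fin_t hP (hVt t ht) (hTt t ht) (neg_le_of_abs_le (hFb t ht))
    rw [hF] at h2
    exact h2

theorem n12 : N12 := by
  intro h7 h8 h9 h10 h11 a ha hb hal hs b lam cnt d hblk hd N hN
  have hJn : nmin 120 (Nat.add 24 b) = min 120 (24 + b) := by rw [nmin_eq]; rfl
  obtain ⟨J, hJdef⟩ : ∃ J, J = min 120 (24 + b) := ⟨_, rfl⟩
  rw [hJn, ← hJdef] at hN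
  have h0 : (0 : ℝ) < (a : ℝ) / 8192 := by
    have ha' : (2048 : ℝ) ≤ a := by exact_mod_cast ha
    linarith
  have h1 : (a : ℝ) / 8192 < 1 / 2 := by
    have hb' : (a : ℝ) < 4096 := by exact_mod_cast hb
    linarith
  have hc := core h10 h11 h0 h1 hal (fun j => fld (acf a) 160 j) hs hblk hd hJdef rfl
  have hdig := h8 (cI (fun j => fld (acf a) 160 j) b J) (horn (acf a) b J) J lam (by omega) (by omega)
    (blk_facts hblk hd).2.1 hc.1 (h7 (acf a) b J (by omega))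
  rw [← hN] at hdig
  have hP := h9 (nn (cI (fun j => fld (acf a) 160 j) b J) J lam) N d (blk_facts hblk hd).2.2.1
    hc.2.1 hc.2.2.1 (by
      rw [hdig]
      apply sum_congr rfl
      intro t _
      rw [nn_sum (cI (fun j => fld (acf a) 160 j) b J) J lam t (fun i => 2 ^ (216 * i))])
  intro p x
  refine ⟨?_, ?_, ?_⟩
  · have h2 := hc.2.2.2 0 (by norm_num) _ (hP 0 (by norm_num))
    rw [ext_eq]
    exact h2
  · have h2 := hc.2.2.2 1 (by norm_num) _ (hP 1 (by norm_num))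
    rw [ext_eq]
    exact h2
  · have h2 := hc.2.2.2 2 (by norm_num) _ (hP 2 (by norm_num))
    rw [ext_eq]
    exact h2

end Pool.Agent.Helper75.P705
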