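import Pool.Agent.Helper63.P705.NUM.Goals

/-!
# MP_705522_gt: numeric kernel, one block (N12), preparations
-/

namespace Pool.Agent.Helper75.P705

open Finset
open Pool.Agent.Helper63.P705
open Pool.Agent.Helper53.PT (mo m3 f0 f1 f2)

/-- weight `(i+t)!/i!` -/
def W (t i : ℕ) : ℕ := (i + t).descFactorial t

theorem W_zero (i : ℕ) : W 0 i = 1 := rfl
theorem W_one (i : ℕ) : W 1 i = i + 1 := by
  simp [W, Nat.descFactorial]
theorem W_two (i : ℕ) : W 2 i = (i + 2) * (i + 1) := by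
  simp [W, Nat.descFactorial]; ring

theorem choose_desc (j i t : ℕ) :
    j.choose (i + t) * W t i = j.descFactorial t * (j - t).choose i := by
  unfold W
  rcases Nat.lt_or_ge j (i + t) with h | h
  · rw [Nat.choose_eq_zero_of_lt h, zero_mul]
    rcases Nat.lt_or_ge j t with h' | h'
    · rw [Nat.descFactorial_eq_zero_iff_lt.2 h', zero_mul]
    · rw [Nat.choose_eq_zero_of_lt (by omega : j - t < i), mul_zero]
  · rw [Nat.descFactorial_eq_factorial_mul_choose, Nat.descFactorial_eq_factorial_mul_choose]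
    have := Nat.choose_mul (n := j) (k := i + t) (s := t) (by omega)
    rw [Nat.add_sub_cancel] at this
    calc j.choose (i + t) * (t.factorial * (i + t).choose t)
        = t.factorial * (j.choose (i + t) * (i + t).choose t) := by ring
      _ = t.factorial * (j.choose t * (j - t).choose i) := by rw [this]
      _ = _ := by ring

theorem binom_part {x y : ℝ} (hx : 0 ≤ x) (hy : 0 ≤ y) (j n : ℕ) :
    ∑ i ∈ range n, (j.choose i : ℝ) * x ^ (j - i) * y ^ i ≤ (x + y) ^ j := by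
  have h1 : ∑ i ∈ range n, (j.choose i : ℝ) * x ^ (j - i) * y ^ i ≤
      ∑ i ∈ range (j + 1 + n), (j.choose i : ℝ) * x ^ (j - i) * y ^ i := by
    apply sum_le_sum_of_subset_of_nonneg
    · intro i hi
      rw [mem_range] at hi ⊢
      omega
    · intro i _ _
      positivity
  have h2 : ∑ i ∈ range (j + 1 + n), (j.choose i : ℝ) * x ^ (j - i) * y ^ i =
      ∑ i ∈ range (j + 1), (j.choose i : ℝ) * x ^ (j - i) * y ^ i := by
    symm
    apply sum_subset
    · intro i hi
      rw [mem_range] at hi ⊢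
      omega
    · intro i _ hi
      rw [mem_range] at hi
      rw [Nat.choose_eq_zero_of_lt (by omega)]
      simp
  rw [h2] at h1
  refine h1.trans (le_of_eq ?_)
  rw [add_comm x y, add_pow]
  apply sum_congr rfl
  intro i _
  ring

/-- the error of the coefficient -/
noncomputable def er (A : ℕ → ℕ) (T : ℕ → ℝ) (b J i : ℕ) : ℝ :=
  ∑ j ∈ range (J + 1), (-1) ^ j * (((A j : ℝ) - T j) / 2 ^ 100) * (j.choose i : ℝ) * (b : ℝ) ^ (j - i) / 128 ^ j

theorem er_abs (A : ℕ → ℕ) (T : ℕ → ℝ) (b J i : ℕ) : |er A T b J i| ≤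
    ∑ j ∈ range (J + 1), |(A j : ℝ) - T j| / 2 ^ 100 * ((j.choose i : ℝ) * (b : ℝ) ^ (j - i) / 128 ^ j) := by
  unfold er
  refine (abs_sum_le_sum_abs _ _).trans (le_of_eq (sum_congr rfl fun j _ => ?_))
  rw [abs_div, abs_mul, abs_mul, abs_mul, abs_div, abs_pow, abs_neg, abs_one, one_pow, one_mul,
    abs_of_nonneg (by positivity : (0 : ℝ) ≤ 2 ^ 100), abs_of_nonneg (by positivity : (0 : ℝ) ≤ 128 ^ j),
    abs_of_nonneg (by positivity : (0 : ℝ) ≤ (j.choose i : ℝ)),
    abs_of_nonneg (by positivity : (0 : ℝ) ≤ (b : ℝ) ^ (j - i))]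
  ring

theorem er_bd (A : ℕ → ℕ) (T : ℕ → ℝ) {b J : ℕ} (t n : ℕ) {e : ℝ} (he : 0 ≤ e) (hbe : (b : ℝ) + e ≤ 128)
    (hJ : J ≤ 120) (hs : ∑ j ∈ range 121, |(A j : ℝ) - T j| ≤ 2 ^ 57) :
    ∑ i ∈ range n, (W t i : ℝ) * |er A T b J (i + t)| * e ^ i ≤ 2⁻¹ ^ 43 := by
  have key : ∀ j, j ≤ J → ∑ i ∈ range n,
      (W t i : ℝ) * ((j.choose (i + t) : ℝ) * (b : ℝ) ^ (j - (i + t)) / 128 ^ j) * e ^ i ≤ 1 := by
    intro j hj
    have e1 : ∑ i ∈ range n, (W t i : ℝ) * ((j.choose (i + t) : ℝ) * (b : ℝ) ^ (j - (i + t)) / 128 ^ j) * e ^ i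
        = (j.descFactorial t : ℝ) / 128 ^ j *
          ∑ i ∈ range n, ((j - t).choose i : ℝ) * (b : ℝ) ^ ((j - t) - i) * e ^ i := by
      rw [mul_sum]
      apply sum_congr rfl
      intro i _
      have h := choose_desc j i t
      have h' : (j.choose (i + t) : ℝ) * (W t i : ℝ) = (j.descFactorial t : ℝ) * ((j - t).choose i : ℝ) := by
        exact_mod_cast h
      rw [show j - (i + t) = (j - t) - i by omega]
      calc _ = ((j.choose (i + t) : ℝ) * (W t i : ℝ)) * ((b : ℝ) ^ ((j - t) - i) / 128 ^ j * e ^ i) := by ring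
        _ = _ := by rw [h']; ring
    rw [e1]
    have h2 := binom_part (x := (b : ℝ)) (y := e) (by positivity) he (j - t) n
    rcases Nat.lt_or_ge j t with h | h
    · rw [Nat.descFactorial_eq_zero_iff_lt.2 h]
      simp
    · have h3 : (j.descFactorial t : ℝ) ≤ 128 ^ t := by
        have h4 := Nat.descFactorial_le_pow j t
        have h5 : j ^ t ≤ 128 ^ t := Nat.pow_le_pow_left (by omega) t
        exact_mod_cast h4.trans h5
      have h6 : ((b : ℝ) + e) ^ (j - t) ≤ 128 ^ (j - t) :=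
        pow_le_pow_left₀ (by positivity) hbe _
      have h7 : (128 : ℝ) ^ t * 128 ^ (j - t) = 128 ^ j := by
        rw [← pow_add]; congr 1; omega
      calc _ ≤ (128 : ℝ) ^ t / 128 ^ j * 128 ^ (j - t) := by
            apply mul_le_mul _ (h2.trans h6) _ (by positivity)
            · exact div_le_div_of_nonneg_right h3 (by positivity)
            · apply sum_nonneg; intro i _; positivity
        _ = (128 : ℝ) ^ t * 128 ^ (j - t) / 128 ^ j := by ring
        _ = 1 := by rw [h7, div_self (by positivity)]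
  calc ∑ i ∈ range n, (W t i : ℝ) * |er A T b J (i + t)| * e ^ i
      ≤ ∑ i ∈ range n, (W t i : ℝ) * (∑ j ∈ range (J + 1), |(A j : ℝ) - T j| / 2 ^ 100 *
          ((j.choose (i + t) : ℝ) * (b : ℝ) ^ (j - (i + t)) / 128 ^ j)) * e ^ i := by
        apply sum_le_sum
        intro i _
        exact mul_le_mul_of_nonneg_right
          (mul_le_mul_of_nonneg_left (er_abs A T b J (i + t)) (by positivity)) (by positivity)
    _ = ∑ j ∈ range (J + 1), |(A j : ℝ) - T j| / 2 ^ 100 * ∑ i ∈ range n,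
          (W t i : ℝ) * ((j.choose (i + t) : ℝ) * (b : ℝ) ^ (j - (i + t)) / 128 ^ j) * e ^ i := by
        simp_rw [mul_sum, sum_mul]
        rw [sum_comm]
        apply sum_congr rfl; intro j _
        apply sum_congr rfl; intro i _
        ring
    _ ≤ ∑ j ∈ range (J + 1), |(A j : ℝ) - T j| / 2 ^ 100 * 1 := by
        apply sum_le_sum
        intro j hj
        rw [mem_range] at hj
        exact mul_le_mul_of_nonneg_left (key j (by omega)) (by positivity)
    _ = (∑ j ∈ range (J + 1), |(A j : ℝ) - T j|) / 2 ^ 100 := by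
        rw [sum_div]; simp
    _ ≤ 2 ^ 57 / 2 ^ 100 := by
        apply div_le_div_of_nonneg_right _ (by positivity)
        refine le_trans (sum_le_sum_of_subset_of_nonneg ?_ ?_) hs
        · intro i hi
          rw [mem_range] at hi ⊢
          omega
        · intro i _ _; positivity
    _ = 2⁻¹ ^ 43 := by norm_num

/-- the integer coefficient in terms of the exact one -/
theorem c_eq (θ : ℝ) (A : ℕ → ℕ) (b J i : ℕ) :
    (cI A b J i : ℝ) / 2 ^ (7 * J + 100) = cT θ (b / 2) J i / 2 ^ i + er A (Tj θ) b J i := by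
  unfold cI cT er
  push_cast
  rw [sum_div, sum_div, ← sum_add_distrib]
  apply sum_congr rfl
  intro j hj
  rw [mem_range] at hj
  rcases Nat.lt_or_ge j i with h | h
  · rw [Nat.choose_eq_zero_of_lt h]; simp
  · unfold Tj
    have e1 : (2 : ℝ) ^ (7 * J + 100) = 2 ^ (7 * (J - j)) * 128 ^ j * 2 ^ 100 := by
      rw [show (128 : ℝ) = 2 ^ 7 by norm_num, ← pow_mul, ← pow_add, ← pow_add]
      congr 1
      omega
    have e2 : ((b : ℝ) / 2) ^ (j - i) = (b : ℝ) ^ (j - i) / 2 ^ (j - i) := div_pow _ _ _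
    have e3 : (2 : ℝ) ^ (j - i) * 2 ^ i = 2 ^ j := by
      rw [← pow_add]; congr 1; omega
    have e4 : (128 : ℝ) ^ j = 64 ^ j * 2 ^ j := by
      rw [← mul_pow]; norm_num
    have e5 : al θ j * ((b : ℝ) ^ (j - i) / 2 ^ (j - i)) / 2 ^ i = al θ j * (b : ℝ) ^ (j - i) / 2 ^ j := by
      rw [← e3]; field_simp
    rw [e1, e2]
    calc (-1) ^ j * (A j : ℝ) * 2 ^ (7 * (J - j)) * (j.choose i : ℝ) * (b : ℝ) ^ (j - i) /
          (2 ^ (7 * (J - j)) * 128 ^ j * 2 ^ 100)
        = (-1) ^ j * ((A j : ℝ) / 2 ^ 100) * (j.choose i : ℝ) * (b : ℝ) ^ (j - i) / 128 ^ j := by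
          field_simp
      _ = (-1) ^ j * (j.choose i : ℝ) * (al θ j * (b : ℝ) ^ (j - i) / 2 ^ j) +
          (-1) ^ j * (((A j : ℝ) - 2 ^ 100 * 64 ^ j * al θ j) / 2 ^ 100) * (j.choose i : ℝ) *
            (b : ℝ) ^ (j - i) / 128 ^ j := by
          rw [e4]; field_simp; ring
      _ = _ := by rw [← e5]; ring

end Pool.Agent.Helper75.P705
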