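import Pool.Agent.Helper75.P705.N12a

/-!
# MP_705522_gt: numeric kernel, one block (N12), bound of the coefficients, the blocks
-/

namespace Pool.Agent.Helper75.P705

open Finset Filter Topology
open Pool.Agent.Helper63.P705
open Pool.Agent.Helper53.PT (mo m3 f0 f1 f2)

/-- tail of the exponential series -/
theorem exp_tail {y : ℝ} (hy : 0 ≤ y) {K : ℕ} (hK : 3 * y ≤ K) (n : ℕ) :
    ∑ j ∈ range n, y ^ (K + j) / ((K + j).factorial : ℝ) ≤ 1 := by
  have h1 : ∑ j ∈ range n, (3 * y) ^ (K + j) / ((K + j).factorial : ℝ) ≤ Real.exp (3 * y) := by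
    refine le_trans ?_ (Real.sum_le_exp_of_nonneg (by positivity : 0 ≤ 3 * y) (K + n))
    rw [sum_range_add]
    have : 0 ≤ ∑ x ∈ range K, (3 * y) ^ x / (x.factorial : ℝ) := sum_nonneg fun i _ => by positivity
    linarith
  have h2 : ∀ j : ℕ, y ^ (K + j) / ((K + j).factorial : ℝ) ≤
      (3 * y) ^ (K + j) / ((K + j).factorial : ℝ) / 3 ^ K := by
    intro j
    rw [div_div, mul_comm ((K + j).factorial : ℝ), ← div_div]
    apply div_le_div_of_nonneg_right _ (by positivity)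
    rw [le_div_iff₀ (by positivity), mul_pow, pow_add (3 : ℝ)]
    have h3 : (1 : ℝ) ≤ 3 ^ j := one_le_pow₀ (by norm_num)
    have h4 : 0 ≤ y ^ (K + j) * 3 ^ K := by positivity
    nlinarith [mul_le_mul_of_nonneg_left h3 h4]
  calc _ ≤ ∑ j ∈ range n, (3 * y) ^ (K + j) / ((K + j).factorial : ℝ) / 3 ^ K := sum_le_sum fun j _ => h2 j
    _ = (∑ j ∈ range n, (3 * y) ^ (K + j) / ((K + j).factorial : ℝ)) / 3 ^ K := by rw [sum_div]
    _ ≤ Real.exp (3 * y) / 3 ^ K := div_le_div_of_nonneg_right h1 (by positivity)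
    _ ≤ Real.exp K / 3 ^ K := div_le_div_of_nonneg_right (Real.exp_le_exp.2 hK) (by positivity)
    _ ≤ 1 := by
      rw [div_le_one (by positivity)]
      have : Real.exp (K : ℝ) = Real.exp 1 ^ K := by rw [← Real.exp_nat_mul, mul_one]
      rw [this]
      exact pow_le_pow_left₀ (Real.exp_pos 1).le (by linarith [Real.exp_one_lt_d9]) K

theorem cT_bd (h10 : N10) {θ : ℝ} (h0 : 0 < θ) (h1 : θ < 1 / 2)
    (hal : ∀ j, 0 < al θ j ∧ al θ j ≤ 1 / (2 ^ j * (j.factorial : ℝ))) {xb : ℝ} (hx : 0 ≤ xb) {J i : ℕ}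
    (hi : i ≤ J) (hK : 3 * (xb / 2) ≤ ((J + 1 - i : ℕ) : ℝ)) :
    |cT θ xb J i| ≤ 2 / (2 ^ i * (i.factorial : ℝ)) := by
  obtain ⟨K, hKdef⟩ : ∃ K, K = J + 1 - i := ⟨_, rfl⟩
  rw [← hKdef] at hK
  set a : ℕ → ℝ := fun j => (-1) ^ (j + i) * (((j + i).factorial : ℝ) / (j.factorial : ℝ)) * al θ (j + i) * xb ^ j
    with ha
  have hab : ∀ j, |a j| ≤ (xb / 2) ^ j / (j.factorial : ℝ) / 2 ^ i := by
    intro j
    rw [ha]
    simp only
    rw [abs_mul, abs_mul, abs_mul, abs_pow, abs_neg, abs_one, one_pow, one_mul,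
      abs_of_nonneg (by positivity : (0 : ℝ) ≤ ((j + i).factorial : ℝ) / (j.factorial : ℝ)),
      abs_of_nonneg (hal (j + i)).1.le, abs_of_nonneg (by positivity : (0 : ℝ) ≤ xb ^ j)]
    calc _ ≤ ((j + i).factorial : ℝ) / (j.factorial : ℝ) * (1 / (2 ^ (j + i) * ((j + i).factorial : ℝ))) * xb ^ j :=
          mul_le_mul_of_nonneg_right (mul_le_mul_of_nonneg_left (hal (j + i)).2 (by positivity)) (by positivity)
      _ = _ := by
          rw [div_pow, pow_add]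
          have : ((j + i).factorial : ℝ) ≠ 0 := by positivity
          field_simp
  have hsum : Summable a := by
    apply Summable.of_norm_bounded (g := fun j => (xb / 2) ^ j / (j.factorial : ℝ) / 2 ^ i)
    · exact (Real.summable_pow_div_factorial (xb / 2)).div_const _
    · intro j; exact hab j
  have hd : iteratedDeriv i (f0 θ) xb = ∑' j, a j := (h10 θ h0 h1).2.1 i xb
  have hdb : |∑' j, a j| ≤ 1 / 2 ^ i := by
    rw [← hd]; exact (h10 θ h0 h1).2.2 i xb hx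
  have hpart : |(∑' j, a j) - ∑ j ∈ range K, a j| ≤ 1 / 2 ^ i := by
    have ht : Tendsto (fun n => |(∑ j ∈ range n, a j) - ∑ j ∈ range K, a j|) atTop
        (𝓝 |(∑' j, a j) - ∑ j ∈ range K, a j|) :=
      ((hsum.hasSum.tendsto_sum_nat.sub_const _).abs)
    apply le_of_tendsto ht
    filter_upwards [eventually_ge_atTop K] with n hn
    obtain ⟨m, rfl⟩ := Nat.exists_eq_add_of_le hn
    rw [sum_range_add, add_sub_cancel_left]
    calc |∑ x ∈ range m, a (K + x)| ≤ ∑ x ∈ range m, |a (K + x)| := abs_sum_le_sum_abs _ _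
      _ ≤ ∑ x ∈ range m, (xb / 2) ^ (K + x) / ((K + x).factorial : ℝ) / 2 ^ i :=
          sum_le_sum fun x _ => hab _
      _ = (∑ x ∈ range m, (xb / 2) ^ (K + x) / ((K + x).factorial : ℝ)) / 2 ^ i := by rw [sum_div]
      _ ≤ 1 / 2 ^ i := div_le_div_of_nonneg_right (exp_tail (by positivity) hK m) (by positivity)
  have hcT : (i.factorial : ℝ) * cT θ xb J i = ∑ j ∈ range K, a j := by
    unfold cT
    have e1 : J + 1 = i + K := by omega
    rw [e1, sum_range_add]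
    have e2 : ∑ j ∈ range i, (-1 : ℝ) ^ j * (j.choose i : ℝ) * al θ j * xb ^ (j - i) = 0 := by
      apply sum_eq_zero
      intro j hj
      rw [mem_range] at hj
      rw [Nat.choose_eq_zero_of_lt hj]
      simp
    rw [e2, zero_add, mul_sum]
    apply sum_congr rfl
    intro j _
    rw [ha]
    simp only
    have e3 : ((i + j).choose i : ℝ) * (i.factorial : ℝ) * (j.factorial : ℝ) = ((j + i).factorial : ℝ) := by
      have := Nat.add_choose_mul_factorial_mul_factorial i j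
      rw [add_comm j i, Nat.choose_symm_add]
      exact_mod_cast this
    rw [← e3, add_comm j i, Nat.add_sub_cancel_left]
    field_simp
  have h3 : |∑ j ∈ range K, a j| ≤ 2 / 2 ^ i := by
    have h4 := abs_sub_abs_le_abs_sub (∑ j ∈ range K, a j) (∑' j, a j)
    rw [abs_sub_comm] at hpart
    have h5 : (2 : ℝ) / 2 ^ i = 1 / 2 ^ i + 1 / 2 ^ i := by ring
    linarith
  rw [← hcT, abs_mul, abs_of_nonneg (by positivity : (0 : ℝ) ≤ (i.factorial : ℝ))] at h3
  rw [← div_div, le_div_iff₀ (by positivity)]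
  linarith

/-- facts about the blocks -/
theorem blk_facts {b lam cnt d : ℕ} (hb : IsBlk b lam cnt) (hd : d < cnt) :
    b ≤ 124 ∧ lam ≤ 8 ∧ d ≤ 255 ∧ d ≤ 4 * 2 ^ lam ∧ b * 2 ^ lam + d ≤ 128 * 2 ^ lam ∧
    (b ≤ 15 ∧ d ≤ 2 ^ lam ∨ 16 ≤ b ∧ 4 ∣ b) := by
  rcases hb with ⟨rfl, rfl, rfl⟩ | ⟨h1, h2, rfl, rfl⟩ | ⟨i, hi, rfl, rfl, rfl⟩ | ⟨i, hi, rfl, rfl, h⟩
  · norm_num; omega
  · norm_num; omega
  · norm_num; omega
  · have : cnt ≤ 9 := by rw [h]; split_ifs <;> omega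
    have h' : i = 19 ∨ (i < 19 ∧ cnt = 8) := by
      by_cases hh : i = 19
      · exact Or.inl hh
      · right; rw [if_neg hh] at h; omega
    rcases h' with h' | ⟨h', h''⟩
    · subst h'; norm_num; omega
    · norm_num; omega

set_option maxRecDepth 10000 in
theorem fac_small : ∀ b < 16, (b + 1) ^ (23 + b) * 2 ^ 50 ≤ 4 ^ (23 + b) * (23 + b).factorial := by
  decide +kernel

set_option maxRecDepth 10000 in
theorem fac_big : ∀ i < 28, (4 * (i + 4) + 4) ^ (min 120 (24 + 4 * (i + 4)) - 1) * 2 ^ 50 ≤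
    4 ^ (min 120 (24 + 4 * (i + 4)) - 1) * (min 120 (24 + 4 * (i + 4)) - 1).factorial := by
  decide +kernel

theorem blk_fac {b lam cnt d : ℕ} (hb : IsBlk b lam cnt) (hd : d < cnt) {J : ℕ} (hJ : J = min 120 (24 + b)) :
    ((b / 2 + (d / 2 ^ lam) / 2 : ℝ) / 2) ^ (J - 1) / ((J - 1).factorial : ℝ) ≤ 2⁻¹ ^ 50 := by
  obtain ⟨h1, h2, h3, h4, h5, h6⟩ := blk_facts hb hd
  have aux : ∀ E : ℕ, d ≤ E * 2 ^ lam → (b + E) ^ (J - 1) * 2 ^ 50 ≤ 4 ^ (J - 1) * (J - 1).factorial →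
      ((b / 2 + (d / 2 ^ lam) / 2 : ℝ) / 2) ^ (J - 1) / ((J - 1).factorial : ℝ) ≤ 2⁻¹ ^ 50 := by
    intro E hE h
    have h7 : (d : ℝ) / 2 ^ lam ≤ E := by
      rw [div_le_iff₀ (by positivity)]; exact_mod_cast hE
    have h8 : ((b / 2 + (d / 2 ^ lam) / 2 : ℝ) / 2) ≤ ((b : ℝ) + E) / 4 := by
      linarith
    have h9 : ((b / 2 + (d / 2 ^ lam) / 2 : ℝ) / 2) ^ (J - 1) ≤ (((b : ℝ) + E) / 4) ^ (J - 1) :=
      pow_le_pow_left₀ (by positivity) h8 _
    have h10 : ((b : ℝ) + E) ^ (J - 1) * 2 ^ 50 ≤ 4 ^ (J - 1) * ((J - 1).factorial : ℝ) := by exact_mod_cast h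
    rw [div_le_iff₀ (by positivity)]
    refine h9.trans ?_
    rw [div_pow, div_le_iff₀ (by positivity)]
    calc ((b : ℝ) + E) ^ (J - 1) = ((b : ℝ) + E) ^ (J - 1) * 2 ^ 50 * 2⁻¹ ^ 50 := by
          rw [mul_assoc, ← mul_pow]; norm_num
      _ ≤ 4 ^ (J - 1) * ((J - 1).factorial : ℝ) * 2⁻¹ ^ 50 := by
          apply mul_le_mul_of_nonneg_right h10 (by positivity)
      _ = _ := by ring
  rcases h6 with ⟨h6, h7⟩ | ⟨h6, i, hi⟩
  · apply aux 1 (by omega)
    have := fac_small b (by omega)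
    have hJ' : J - 1 = 23 + b := by omega
    rw [hJ']; exact this
  · apply aux 4 h4
    have := fac_big (i - 4) (by omega)
    have e1 : 4 * (i - 4 + 4) = b := by omega
    rw [e1, ← hJ] at this
    exact this

end Pool.Agent.Helper75.P705
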